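import Pool.Agent.Y38.CT.Eig
import Pool.Agent.Y552.CT.Stm2

/-! Project CT: a subgroup of small index with an eigenvector, solvable actions. -/

set_option autoImplicit false

namespace Pool.Agent.Y624.CT

open Module Pool.Agent.Y38.CT Pool.Agent.Y552.CT

universe u v

section

variable {G : Type u} [Group G] {V : Type v} [AddCommGroup V] [Module ℂ V]

/-- the elements which act as scalars -/
def scl [Nontrivial V] (ρ : G →* Module.End ℂ V) : Subgroup G where
  carrier := {g | ∃ c : ℂ, ρ g = c • (1 : Module.End ℂ V)}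
  one_mem' := ⟨1, by rw [map_one, one_smul]⟩
  mul_mem' := by
    rintro a b ⟨c, hc⟩ ⟨d, hd⟩
    exact ⟨c * d, by rw [map_mul, hc, hd, smul_mul_smul_comm, one_mul]⟩
  inv_mem' := by
    rintro a ⟨c, hc⟩
    have h1 : ρ a⁻¹ * ρ a = 1 := by rw [← map_mul, inv_mul_cancel, map_one]
    rw [hc, mul_smul_comm, mul_one] at h1
    have hc0 : c ≠ 0 := by
      rintro rfl
      rw [zero_smul] at h1
      exact zero_ne_one h1
    exact ⟨c⁻¹, by rw [← h1, smul_smul, inv_mul_cancel₀ hc0, one_smul]⟩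

theorem mem_scl [Nontrivial V] {ρ : G →* Module.End ℂ V} {g : G} :
    g ∈ scl ρ ↔ ∃ c : ℂ, ρ g = c • (1 : Module.End ℂ V) := Iff.rfl

theorem mul_inv' (ρ : G →* Module.End ℂ V) (g : G) : ρ g * ρ g⁻¹ = 1 := by
  rw [← map_mul, mul_inv_cancel, map_one]

theorem inv_mul' (ρ : G →* Module.End ℂ V) (g : G) : ρ g⁻¹ * ρ g = 1 := by
  rw [← map_mul, inv_mul_cancel, map_one]

instance scl_normal [Nontrivial V] (ρ : G →* Module.End ℂ V) : (scl ρ).Normal := by
  refine ⟨?_⟩
  rintro n ⟨c, hc⟩ g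
  refine ⟨c, ?_⟩
  rw [map_mul, map_mul, hc, mul_smul_comm, mul_one, smul_mul_assoc, mul_inv']

/-- the representation by conjugation on the endomorphisms -/
noncomputable def sig (ρ : G →* Module.End ℂ V) : G →* Module.End ℂ (Module.End ℂ V) where
  toFun g := LinearMap.mulLeft ℂ (ρ g) * LinearMap.mulRight ℂ (ρ g⁻¹)
  map_one' := by
    refine LinearMap.ext fun X => ?_
    change ρ 1 * (X * ρ (1 : G)⁻¹) = X
    rw [inv_one, map_one, mul_one, one_mul]
  map_mul' a b := by
    refine LinearMap.ext fun X => ?_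
    change ρ (a * b) * (X * ρ (a * b)⁻¹) = ρ a * ((ρ b * (X * ρ b⁻¹)) * ρ a⁻¹)
    rw [mul_inv_rev, map_mul, map_mul]
    simp only [mul_assoc]

theorem sig_apply (ρ : G →* Module.End ℂ V) (g : G) (X : Module.End ℂ V) :
    sig ρ g X = ρ g * (X * ρ g⁻¹) := rfl

theorem sig_scl [Nontrivial V] {ρ : G →* Module.End ℂ V} {g : G} (hg : g ∈ scl ρ) :
    sig ρ g = 1 := by
  obtain ⟨c, hc⟩ := mem_scl.1 hg
  refine LinearMap.ext fun X => ?_
  rw [sig_apply, Module.End.one_apply]
  have h1 := mul_inv' ρ g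
  rw [hc, smul_mul_assoc, one_mul] at h1
  rw [hc, smul_mul_assoc, one_mul, ← mul_smul_comm, h1, mul_one]

/-- the elements which commute with `q` up to scalars -/
theorem stab_index [FiniteDimensional ℂ V] [Nontrivial V] (ρ : G →* Module.End ℂ V)
    (M : Subgroup G) [hMn : M.Normal] (hM : ∀ a ∈ M, ∀ b ∈ M, a * b * a⁻¹ * b⁻¹ ∈ scl ρ)
    (hZ : ∀ c ∈ M, (∀ y ∈ M, ρ c * ρ y = ρ y * ρ c) → c ∈ scl ρ) (q : G) (hq : q ∈ M) :
    ∃ K : Subgroup G, (∀ g, g ∈ K ↔ g * q * g⁻¹ * q⁻¹ ∈ scl ρ) ∧ K.index ≠ 0 ∧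
      K.index ≤ finrank ℂ V * finrank ℂ V := by
  classical
  obtain ⟨K, hK⟩ : ∃ K : Subgroup G, ∀ g, g ∈ K ↔ g * q * g⁻¹ * q⁻¹ ∈ scl ρ := by
    refine ⟨(Subgroup.centralizer {(QuotientGroup.mk' (scl ρ) q)}).comap
      (QuotientGroup.mk' (scl ρ)), fun g => ?_⟩
    rw [Subgroup.mem_comap, Subgroup.mem_centralizer_singleton_iff]
    have h1 : g * q * g⁻¹ * q⁻¹ ∈ scl ρ ↔ QuotientGroup.mk' (scl ρ) (g * q * g⁻¹ * q⁻¹) = 1 :=
      (QuotientGroup.eq_one_iff _).symm
    rw [h1, map_mul, map_mul, map_mul, map_inv, map_inv, mul_inv_eq_one, mul_inv_eq_iff_eq_mul]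
    try exact eq_comm
  have hcom : ∀ a ∈ M, ∀ b ∈ M, sig ρ a * sig ρ b = sig ρ b * sig ρ a := by
    intro a ha b hb
    have h1 := sig_scl (hM a ha b hb)
    have h2 : a * b = (a * b * a⁻¹ * b⁻¹) * (b * a) := by group
    rw [← map_mul, ← map_mul, h2, map_mul, h1, one_mul]
  have hχ : ∀ d : M, ∃ c : ℂ, sig ρ (d : G) (ρ q) = c • ρ q := by
    intro d
    obtain ⟨c, hc⟩ := mem_scl.1 (hM d d.2 q hq)
    refine ⟨c, ?_⟩
    rw [sig_apply, ← map_mul, ← map_mul]
    have h2 : (d : G) * (q * (d : G)⁻¹) = ((d : G) * q * (d : G)⁻¹ * q⁻¹) * q := by group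
    rw [h2, map_mul, hc, smul_mul_assoc, one_mul]
  choose χ hχ using hχ
  have hqχ : ρ q ∈ ws (sig ρ) M χ := mem_ws.2 hχ
  have hinj : ∀ g h : G, act M g χ = act M h χ → (g : G ⧸ K) = h := by
    intro g h he
    have hk : act M (h⁻¹ * g) χ = χ := by
      rw [act_mul, he, ← act_mul, inv_mul_cancel, act_one]
    have h1 : (h : G ⧸ K) = g := by
      rw [QuotientGroup.eq, hK]
      generalize h⁻¹ * g = k at hk
      have h2 : sig ρ k (ρ q) ∈ ws (sig ρ) M χ := by
        have := ws_act k hqχ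
        rwa [hk] at this
      have h3 : sig ρ k (ρ q) = ρ (k * q * k⁻¹) := by
        rw [sig_apply, map_mul, map_mul, mul_assoc]
      rw [h3] at h2
      have hx : k * q * k⁻¹ ∈ M := hMn.conj_mem q hq k
      generalize k * q * k⁻¹ = x at h2 hx
      refine hZ (x * q⁻¹) (M.mul_mem hx (M.inv_mem hq)) fun y hy => ?_
      have h4 := mem_ws.1 h2 ⟨y, hy⟩
      have h5 := mem_ws.1 hqχ ⟨y, hy⟩
      rw [sig_apply] at h4 h5
      generalize χ ⟨y, hy⟩ = c at h4 h5
      -- multiply by ρ y on the right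
      have h6 : ρ y * ρ x = c • (ρ x * ρ y) := by
        have h7 : (ρ y * (ρ x * ρ y⁻¹)) * ρ y = (c • ρ x) * ρ y := by
          rw [show ρ y * (ρ x * ρ y⁻¹) = c • ρ x from h4]
        rw [mul_assoc, mul_assoc, inv_mul', mul_one, smul_mul_assoc] at h7
        exact h7
      have h8 : ρ y * ρ q = c • (ρ q * ρ y) := by
        have h7 : (ρ y * (ρ q * ρ y⁻¹)) * ρ y = (c • ρ q) * ρ y := by
          rw [show ρ y * (ρ q * ρ y⁻¹) = c • ρ q from h5]
        rw [mul_assoc, mul_assoc, inv_mul', mul_one, smul_mul_assoc] at h7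
        exact h7
      have h9 : ρ q⁻¹ * ρ y * ρ q = c • ρ y := by
        rw [mul_assoc, h8, mul_smul_comm, ← mul_assoc, inv_mul', one_mul]
      calc ρ (x * q⁻¹) * ρ y = ρ x * (ρ q⁻¹ * ρ y * ρ q) * ρ q⁻¹ := by
            rw [map_mul, mul_assoc (ρ x), mul_assoc (ρ x), mul_assoc (ρ q⁻¹ * ρ y), mul_inv',
              mul_one]
        _ = (c • (ρ x * ρ y)) * ρ q⁻¹ := by rw [h9, mul_smul_comm]
        _ = ρ y * ρ (x * q⁻¹) := by rw [← h6, map_mul, mul_assoc]
    exact h1.symm
  obtain ⟨p, hp⟩ : ∃ p : G ⧸ K → Submodule ℂ (Module.End ℂ V),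
      p = fun r => ws (sig ρ) M (act M (Quotient.out r) χ) := ⟨_, rfl⟩
  have hpi : iSupIndep p := by
    rw [hp]
    refine (ws_indep (sig ρ) M hcom).comp (f := fun r : G ⧸ K => act M (Quotient.out r) χ) ?_
    intro r r' he
    have h1 := hinj _ _ he
    rwa [QuotientGroup.out_eq', QuotientGroup.out_eq'] at h1
  have hpn : ∀ r, p r ≠ ⊥ := by
    intro r h0
    have h1 : sig ρ (Quotient.out r) (ρ q) ∈ p r := by
      rw [hp]
      exact ws_act _ hqχ
    rw [h0, Submodule.mem_bot] at h1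
    have h2 : ρ q = 0 := by
      apply rho_inj (sig ρ) (Quotient.out r)
      rw [h1, map_zero]
    have h3 := mul_inv' ρ q
    rw [h2, zero_mul] at h3
    exact zero_ne_one h3
  have : Finite (G ⧸ K) := WellFoundedGT.finite_of_iSupIndep hpi hpn
  have := Fintype.ofFinite (G ⧸ K)
  refine ⟨K, hK, ?_, ?_⟩
  · unfold Subgroup.index
    exact Nat.card_pos.ne'
  · unfold Subgroup.index
    rw [Nat.card_eq_fintype_card]
    have h1 := sum_fin p hpi
    rw [Module.finrank_linearMap] at h1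
    refine le_trans ?_ h1
    calc Fintype.card (G ⧸ K) = ∑ _r : G ⧸ K, 1 := by simp
      _ ≤ ∑ r : G ⧸ K, finrank ℂ (p r) :=
        Finset.sum_le_sum fun r _ => Submodule.one_le_finrank_iff.2 (hpn r)

/-- an element which commutes with `q` up to a nontrivial scalar -/
theorem half_dim [FiniteDimensional ℂ V] {ρ : G →* Module.End ℂ V} {q x : G} {ζ μ : ℂ}
    (hζ : ρ q * ρ x = ζ • (ρ x * ρ q)) (hζ1 : ζ ≠ 1) {W : Submodule ℂ V} (hW : W ≠ ⊥)
    (hμ : ∀ w ∈ W, ρ q w = μ • w) : 2 * finrank ℂ W ≤ finrank ℂ V := by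
  obtain ⟨v, hv, hv0⟩ := Submodule.exists_mem_ne_zero_of_ne_bot hW
  have hμ0 : μ ≠ 0 := by
    rintro rfl
    have h1 := hμ v hv
    rw [zero_smul] at h1
    exact hv0 (rho_inj ρ q (h1.trans (map_zero _).symm))
  have hdis : W ⊓ W.map (ρ x) = ⊥ := by
    rw [eq_bot_iff]
    rintro w ⟨hw1, w', hw', rfl⟩
    have h1 := hμ _ hw1
    have h2 : ρ q (ρ x w') = ζ • (μ • ρ x w') := by
      have h3 : (ρ q * ρ x) w' = (ζ • (ρ x * ρ q)) w' := by rw [hζ]
      rw [Module.End.mul_apply, LinearMap.smul_apply, Module.End.mul_apply, hμ w' hw',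
        map_smul] at h3
      exact h3
    rw [h2, smul_smul] at h1
    have h4 : (ζ * μ - μ) • ρ x w' = 0 := by rw [sub_smul, h1, sub_self]
    rcases smul_eq_zero.1 h4 with h5 | h5
    · exfalso
      have h6 : (ζ - 1) * μ = 0 := by rw [sub_mul, one_mul]; exact h5
      rcases mul_eq_zero.1 h6 with h7 | h7
      · exact hζ1 (sub_eq_zero.1 h7)
      · exact hμ0 h7
    · exact (Submodule.mem_bot ℂ).2 h5
  have h1 := Submodule.finrank_sup_add_finrank_inf_eq W (W.map (ρ x))
  have h2 : finrank ℂ (W.map (ρ x)) = finrank ℂ W :=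
    (Submodule.equivMapOfInjective (ρ x) (rho_inj ρ x) W).finrank_eq.symm
  have h3 := Submodule.finrank_le (W ⊔ W.map (ρ x))
  rw [hdis, finrank_bot, add_zero, h2] at h1
  omega

end

theorem Jb_mul {m m' k : ℕ} (h : k * m' ≤ m) (h1 : 1 ≤ m') (hle : m' ≤ m) :
    Jb m' * k ≤ Jb m := by
  unfold Jb
  have h2 : m' ^ (Nat.log 2 m' + 2) ≤ m ^ (Nat.log 2 m + 2) :=
    (Nat.pow_le_pow_left hle _).trans (Nat.pow_le_pow_right (by omega)
      (Nat.add_le_add_right (Nat.log_mono_right hle) 2))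
  calc m' ^ (Nat.log 2 m' + 3) * k = m' ^ (Nat.log 2 m' + 2) * (k * m') := by ring
    _ ≤ m ^ (Nat.log 2 m + 2) * m := Nat.mul_le_mul h2 h
    _ = m ^ (Nat.log 2 m + 3) := by ring

theorem Jb_mul2 {m m' k : ℕ} (h : k * m' ≤ m) (h1 : 1 ≤ m') (hle : 2 * m' ≤ m) :
    Jb m' * (k * (m * m)) ≤ Jb m := by
  unfold Jb
  have hlog : Nat.log 2 m' + 1 ≤ Nat.log 2 m := by
    have h3 : Nat.log 2 (m' * 2) = Nat.log 2 m' + 1 :=
      Nat.log_mul_base (by norm_num) (by omega)
    rw [← h3]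
    exact Nat.log_mono_right (by omega)
  set L := Nat.log 2 m with hL
  have hlt : m < 2 ^ (L + 1) := Nat.lt_pow_succ_log_self (by norm_num) m
  have h4 : m' ^ (L + 1) ≤ m ^ L := by
    have h5 : 2 ^ (L + 1) * m' ^ (L + 1) ≤ 2 ^ (L + 1) * m ^ L := by
      rw [← mul_pow]
      calc (2 * m') ^ (L + 1) ≤ m ^ (L + 1) := Nat.pow_le_pow_left hle _
        _ = m * m ^ L := by rw [pow_succ, mul_comm]
        _ ≤ 2 ^ (L + 1) * m ^ L := Nat.mul_le_mul_right _ hlt.le
    exact Nat.le_of_mul_le_mul_left h5 (by positivity)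
  have h6 : m' ^ (Nat.log 2 m' + 2) ≤ m ^ L :=
    (Nat.pow_le_pow_right h1 (by omega)).trans h4
  calc m' ^ (Nat.log 2 m' + 3) * (k * (m * m)) =
      m' ^ (Nat.log 2 m' + 2) * (k * m') * (m * m) := by ring
    _ ≤ m ^ L * m * (m * m) := Nat.mul_le_mul_right _ (Nat.mul_le_mul h6 h)
    _ = m ^ (L + 3) := by ring

theorem main : ∀ (m : ℕ) (G : Type u) [Group G] (V : Type v) [AddCommGroup V] [Module ℂ V]
    [FiniteDimensional ℂ V] [Nontrivial V] (ρ : G →* Module.End ℂ V), finrank ℂ V = m →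
    (∃ n : ℕ, ∀ a ∈ derivedSeries G n, ρ a = 1) →
    ∃ H : Subgroup G, H.index ≠ 0 ∧ H.index ≤ Jb (finrank ℂ V) ∧ ∃ v : V, v ≠ 0 ∧
      ∀ g ∈ H, ∃ c : ℂ, ρ g v = c • v := by
  intro m
  induction m using Nat.strong_induction_on with
  | _ m ih =>
    intro G _ V _ _ _ _ ρ hm hsolv
    classical
    -- the induction step
    have key : ∀ (K : Subgroup G) (W : Submodule ℂ V), W ≠ ⊥ → W ≠ ⊤ →
        (∀ g ∈ K, ∀ w ∈ W, ρ g w ∈ W) → K.index ≠ 0 →
        ∃ H : Subgroup G, H.index ≠ 0 ∧ H.index ≤ Jb (finrank ℂ W) * K.index ∧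
          ∃ v : V, v ≠ 0 ∧ ∀ g ∈ H, ∃ c : ℂ, ρ g v = c • v := by
      intro K W hW0 hWt hKW hK0
      have hlt : finrank ℂ W < m := by
        rw [← hm]
        exact Submodule.finrank_lt hWt
      have : Nontrivial W := Submodule.nontrivial_iff_ne_bot.2 hW0
      obtain ⟨n, hn⟩ := hsolv
      obtain ⟨H0, h1, h2, w, hw0, hw⟩ := ih (finrank ℂ W) hlt K W (res ρ K W hKW) rfl
        ⟨n, by
          intro a ha
          have h3 : (a : G) ∈ derivedSeries G n :=
            map_derivedSeries_le_derivedSeries K.subtype n ⟨a, ha, rfl⟩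
          have h4 := hn _ h3
          ext w
          rw [res_apply, h4]
          rfl⟩
      refine ⟨H0.map K.subtype, ?_, ?_, (w : V), fun h => hw0 (Subtype.ext h), ?_⟩
      · rw [Subgroup.index_map_subtype]
        exact mul_ne_zero h1 hK0
      · rw [Subgroup.index_map_subtype]
        exact Nat.mul_le_mul_right _ h2
      · rintro g ⟨k, hk, rfl⟩
        obtain ⟨c, hc⟩ := hw k hk
        exact ⟨c, congrArg Subtype.val hc⟩
    by_cases hall : (⊤ : Subgroup G) ≤ scl ρ
    · obtain ⟨v, hv⟩ := exists_ne (0 : V)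
      refine ⟨⊤, by rw [Subgroup.index_top]; exact one_ne_zero, ?_, v, hv, fun g _ => ?_⟩
      · rw [Subgroup.index_top]
        unfold Jb
        exact Nat.one_le_pow _ _ Module.finrank_pos
      · obtain ⟨c, hc⟩ := mem_scl.1 (hall (Subgroup.mem_top g))
        refine ⟨c, ?_⟩
        rw [hc, LinearMap.smul_apply, Module.End.one_apply]
    · -- the last term of the derived series which does not act by scalars
      have hex : ∃ n : ℕ, derivedSeries G n ≤ scl ρ := by
        obtain ⟨n, hn⟩ := hsolv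
        exact ⟨n, fun a ha => mem_scl.2 ⟨1, by rw [hn a ha, one_smul]⟩⟩
      obtain ⟨n, hn1, hn2⟩ : ∃ n : ℕ, ¬ derivedSeries G n ≤ scl ρ ∧
          derivedSeries G (n + 1) ≤ scl ρ := by
        have h0 : Nat.find hex ≠ 0 := by
          intro h0
          have := Nat.find_spec hex
          rw [h0, derivedSeries_zero] at this
          exact hall this
        obtain ⟨n, hn⟩ := Nat.exists_eq_succ_of_ne_zero h0
        refine ⟨n, Nat.find_min hex (by omega), ?_⟩
        have := Nat.find_spec hex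
        rw [hn] at this
        exact this
      obtain ⟨M, hMd⟩ : ∃ M : Subgroup G, M = derivedSeries G n := ⟨_, rfl⟩
      have hMn : M.Normal := by
        rw [hMd]
        infer_instance
      have hMc : ∀ a ∈ M, ∀ b ∈ M, a * b * a⁻¹ * b⁻¹ ∈ scl ρ := by
        intro a ha b hb
        apply hn2
        rw [derivedSeries_succ]
        rw [hMd] at ha hb
        exact Subgroup.commutator_mem_commutator ha hb
      obtain ⟨q, hq, hqs⟩ : ∃ q ∈ M, q ∉ scl ρ := by
        rw [← hMd] at hn1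
        exact SetLike.not_le_iff_exists.1 hn1
      by_cases hZ : ∀ c ∈ M, (∀ y ∈ M, ρ c * ρ y = ρ y * ρ c) → c ∈ scl ρ
      · -- case (b)
        obtain ⟨K', hK', hK'0, hK'i⟩ := stab_index ρ M hMc hZ q hq
        obtain ⟨D, hD⟩ : ∃ D : Subgroup G, D = scl ρ ⊔ Subgroup.zpowers q := ⟨_, rfl⟩
        have hsD : scl ρ ≤ D := by rw [hD]; exact le_sup_left
        have hqD : q ∈ D := by
          rw [hD]
          exact (le_sup_right : Subgroup.zpowers q ≤ _) (Subgroup.mem_zpowers q)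
        have hsc : ∀ d ∈ scl ρ, ∀ y : G, Commute (ρ d) (ρ y) := by
          intro d hd y
          obtain ⟨c, hc⟩ := mem_scl.1 hd
          show ρ d * ρ y = ρ y * ρ d
          rw [hc, smul_mul_assoc, one_mul, mul_smul_comm, mul_one]
        have h4 : D ≤ cen ρ q := by
          rw [hD]
          refine sup_le (fun d hd => hsc d hd q) ?_
          rw [Subgroup.zpowers_le]
          exact Commute.refl _
        have h5 : ∀ y ∈ D, D ≤ cen ρ y := by
          intro y hy
          rw [hD]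
          refine sup_le (fun d hd => hsc d hd y) ?_
          rw [Subgroup.zpowers_le]
          exact (mem_cen.1 (h4 hy)).symm
        have hqK : q ∈ K' := by
          rw [hK', mul_inv_cancel_right, mul_inv_cancel]
          exact (scl ρ).one_mem
        have hnorm : (D.subgroupOf K').Normal := by
          refine ⟨fun d hd g => ?_⟩
          rw [Subgroup.mem_subgroupOf] at hd ⊢
          have h6 : D ≤ D.comap (MulAut.conj (g : G)).toMonoidHom := by
            conv_lhs => rw [hD]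
            refine sup_le ?_ ?_
            · intro d hd
              rw [Subgroup.mem_comap]
              exact hsD ((scl_normal ρ).conj_mem d hd g)
            · rw [Subgroup.zpowers_le, Subgroup.mem_comap]
              change (g : G) * q * (g : G)⁻¹ ∈ D
              have h7 : (g : G) * q * (g : G)⁻¹ = ((g : G) * q * (g : G)⁻¹ * q⁻¹) * q := by group
              rw [h7]
              exact D.mul_mem (hsD ((hK' g).1 g.2)) hqD
          exact h6 hd
        obtain ⟨K, W, hW0, hKW, hK0, hKi, hKs⟩ := step (ρ.comp K'.subtype) (D.subgroupOf K')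
          (fun a ha b hb => (mem_cen.1 (h5 b (Subgroup.mem_subgroupOf.1 hb)
            (Subgroup.mem_subgroupOf.1 ha))).eq)
        obtain ⟨μ, hμ⟩ := hKs ⟨q, hqK⟩ (Subgroup.mem_subgroupOf.2 hqD)
        have hμ' : ∀ w ∈ W, ρ q w = μ • w := hμ
        -- an element which does not commute with `q`
        obtain ⟨x, hx, hxq⟩ : ∃ x ∈ M, ρ q * ρ x ≠ ρ x * ρ q := by
          by_contra hcon
          push Not at hcon
          exact hqs (hZ q hq hcon)
        obtain ⟨ζ, hζ⟩ := mem_scl.1 (hMc q hq x hx)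
        have hζ2 : ρ q * ρ x = ζ • (ρ x * ρ q) := by
          have h7 : q * x = (q * x * q⁻¹ * x⁻¹) * (x * q) := by group
          rw [← map_mul, h7, map_mul, hζ, smul_mul_assoc, one_mul, map_mul]
        have hζ1 : ζ ≠ 1 := by
          rintro rfl
          rw [one_smul] at hζ2
          exact hxq hζ2
        have h2m := half_dim hζ2 hζ1 hW0 hμ'
        have hWpos : 1 ≤ finrank ℂ W := Submodule.one_le_finrank_iff.2 hW0
        have hWt : W ≠ ⊤ := by
          rintro rfl
          rw [finrank_top] at h2m hWpos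
          omega
        obtain ⟨H, e1, e2, v, hv0, hv⟩ := key (K.map K'.subtype) W hW0 hWt (by
          rintro g ⟨k, hk, rfl⟩ w hw
          exact hKW k hk w hw) (by
          rw [Subgroup.index_map_subtype]
          exact mul_ne_zero hK0 hK'0)
        refine ⟨H, e1, e2.trans ?_, v, hv0, hv⟩
        rw [Subgroup.index_map_subtype]
        refine le_trans ?_ (Jb_mul2 hKi hWpos h2m)
        exact Nat.mul_le_mul_left _ (Nat.mul_le_mul_left _ hK'i)
      · -- case (a)
        push Not at hZ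
        obtain ⟨c, hcM, hcc, hcs⟩ := hZ
        obtain ⟨Z, hZd⟩ : ∃ Z : Subgroup G, ∀ g, g ∈ Z ↔ g ∈ M ∧
            ∀ y ∈ M, ρ g * ρ y = ρ y * ρ g := by
          refine ⟨M ⊓ ⨅ y ∈ M, cen ρ y, fun g => ?_⟩
          rw [Subgroup.mem_inf, Subgroup.mem_iInf]
          refine and_congr Iff.rfl (forall_congr' fun y => ?_)
          rw [Subgroup.mem_iInf]
          exact Iff.rfl
        have hZn : Z.Normal := by
          refine ⟨fun d hd g => ?_⟩
          rw [hZd] at hd ⊢
          refine ⟨hMn.conj_mem d hd.1 g, fun y hy => ?_⟩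
          have h6 : g⁻¹ * y * g ∈ M := by simpa using hMn.conj_mem y hy g⁻¹
          have h7 := hd.2 _ h6
          have h8 : ρ (g * d * g⁻¹) * ρ y = ρ g * (ρ d * ρ (g⁻¹ * y * g)) * ρ g⁻¹ := by
            rw [← map_mul, ← map_mul, ← map_mul, ← map_mul]
            congr 1
            group
          have h9 : ρ y * ρ (g * d * g⁻¹) = ρ g * (ρ (g⁻¹ * y * g) * ρ d) * ρ g⁻¹ := by
            rw [← map_mul, ← map_mul, ← map_mul, ← map_mul]
            congr 1
            group
          rw [h8, h9, h7]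
        obtain ⟨K, W, hW0, hKW, hK0, hKi, hKs⟩ := step ρ Z
          (fun a ha b hb => ((hZd a).1 ha).2 b ((hZd b).1 hb).1)
        have hWt : W ≠ ⊤ := by
          rintro rfl
          obtain ⟨μ, hμ⟩ := hKs c ((hZd c).2 ⟨hcM, hcc⟩)
          apply hcs
          rw [mem_scl]
          refine ⟨μ, LinearMap.ext fun w => ?_⟩
          rw [hμ w Submodule.mem_top, LinearMap.smul_apply, Module.End.one_apply]
        obtain ⟨H, e1, e2, v, hv0, hv⟩ := key K W hW0 hWt hKW hK0
        exact ⟨H, e1, e2.trans (Jb_mul hKi (Submodule.one_le_finrank_iff.2 hW0)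
          (Submodule.finrank_le W)), v, hv0, hv⟩

/-- EIG2 -/
theorem eig2 : Pool.Agent.Y552.CT.S_EIG2.{u, v} := by
  intro G _ V _ _ _ _ ρ h
  exact main _ G V ρ rfl h

end Pool.Agent.Y624.CT
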